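import Pool.Agent.H61.KW.TA

set_option autoImplicit false

namespace Pool.Agent.H18.KW

open Set Filter Topology Pool.Agent.H61.KV Pool.Agent.H61.KW

/-- the positive functional bounds the norm on the cone -/
theorem norm_le_pos {V : Type} [NormedAddCommGroup V] [NormedSpace ℝ V] [FiniteDimensional ℝ V]
    {C : Set V} (hC : IsCC C) (e : V →ₗ[ℝ] ℝ) (he : ∀ p ∈ C, p ≠ 0 → 0 < e p) :
    ∃ c0 : ℝ, 0 < c0 ∧ ∀ p ∈ C, c0 * ‖p‖ ≤ e p := by
  have hcont : Continuous e := e.continuous_of_finiteDimensional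
  have hK : IsCompact (C ∩ Metric.sphere (0 : V) 1) :=
    (isCompact_sphere (0 : V) 1).inter_left hC.closed
  rcases (C ∩ Metric.sphere (0 : V) 1).eq_empty_or_nonempty with h0 | hne
  · refine ⟨1, one_pos, fun p hp => ?_⟩
    have hp0 : p = 0 := by
      by_contra hp0
      have hn : 0 < ‖p‖ := norm_pos_iff.2 hp0
      have : ‖p‖⁻¹ • p ∈ C ∩ Metric.sphere (0 : V) 1 := by
        refine ⟨hC.smul _ (inv_nonneg.2 hn.le) p hp, ?_⟩
        rw [mem_sphere_zero_iff_norm, norm_smul, norm_inv, norm_norm, inv_mul_cancel₀ hn.ne']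
      rw [h0] at this
      exact this.elim
    rw [hp0, norm_zero, mul_zero, map_zero]
  · obtain ⟨p0, hp0, hmin⟩ := hK.exists_isMinOn hne hcont.continuousOn
    have hp00 : p0 ≠ 0 := by
      intro h
      have := mem_sphere_zero_iff_norm.1 hp0.2
      rw [h, norm_zero] at this
      exact zero_ne_one this
    refine ⟨e p0, he p0 hp0.1 hp00, fun p hp => ?_⟩
    by_cases h : p = 0
    · rw [h, norm_zero, mul_zero, map_zero]
    · have hn : 0 < ‖p‖ := norm_pos_iff.2 h
      have h1 : ‖p‖⁻¹ • p ∈ C ∩ Metric.sphere (0 : V) 1 := by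
        refine ⟨hC.smul _ (inv_nonneg.2 hn.le) p hp, ?_⟩
        rw [mem_sphere_zero_iff_norm, norm_smul, norm_inv, norm_norm, inv_mul_cancel₀ hn.ne']
      have h2 : e p0 ≤ e (‖p‖⁻¹ • p) := hmin h1
      rw [map_smul, smul_eq_mul] at h2
      calc e p0 * ‖p‖ ≤ ‖p‖⁻¹ * e p * ‖p‖ := mul_le_mul_of_nonneg_right h2 hn.le
        _ = e p := by field_simp

theorem pf_CLS : T_CLS := by
  intro V _ _ _ C a b hC ha hb
  obtain ⟨e, he⟩ := hC.pos
  obtain ⟨c0, hc0, hb0⟩ := norm_le_pos hC e he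
  have hcont : Continuous e := e.continuous_of_finiteDimensional
  have hnn : ∀ p ∈ C, 0 ≤ e p := fun p hp => by
    have := hb0 p hp
    have h1 : 0 ≤ c0 * ‖p‖ := mul_nonneg hc0.le (norm_nonneg p)
    linarith
  apply IsSeqClosed.isClosed
  intro x r hx hr
  choose u hu v hv hxuv using hx
  have her : Tendsto (fun n => e (x n)) atTop (𝓝 (e r)) := (hcont.tendsto r).comp hr
  obtain ⟨M, hM⟩ := her.bddAbove_range
  have hbound : ∀ n, u n ∈ Metric.closedBall (0 : V) (M / c0) := by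
    intro n
    rw [mem_closedBall_zero_iff, le_div_iff₀ hc0, mul_comm]
    have h1 := hb0 (u n) (mem_C (hu n))
    have h2 : e (x n) ≤ M := hM ⟨n, rfl⟩
    have h3 := hnn (v n) (mem_C (hv n))
    rw [hxuv n, map_add] at h2
    linarith
  obtain ⟨u0, -, φ, hφ, hlim⟩ := tendsto_subseq_of_bounded Metric.isBounded_closedBall hbound
  have hu0 : u0 ∈ Fc C a :=
    (cc_face hC ha).closed.mem_of_tendsto hlim (Eventually.of_forall fun n => hu (φ n))
  have hlim2 : Tendsto (fun n => x (φ n) - u (φ n)) atTop (𝓝 (r - u0)) :=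
    (hr.comp hφ.tendsto_atTop).sub hlim
  have hv0 : r - u0 ∈ Fc C b := by
    refine (cc_face hC hb).closed.mem_of_tendsto hlim2 (Eventually.of_forall fun n => ?_)
    rw [hxuv (φ n), add_sub_cancel_left]
    exact hv (φ n)
  exact ⟨u0, hu0, r - u0, hv0, by abel⟩

end Pool.Agent.H18.KW
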