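import Pool.Agent.H61.KW.TA

set_option autoImplicit false

namespace Pool.Agent.H18.KW

open Set Pool.Agent.H61.KV Pool.Agent.H61.KW

theorem sp_add {V : Type} [NormedAddCommGroup V] [NormedSpace ℝ V] [FiniteDimensional ℝ V]
    {C : Set V} {a b : V}
    (h : Dsum C a b) : Sp C (a + b) ≤ Sp C a ⊔ Sp C b := by
  refine Submodule.span_le.2 ?_
  intro r hr
  obtain ⟨u, hu, v, hv, rfl⟩ := h.2.2.2 r hr
  exact Submodule.add_mem_sup (mem_sp hu) (mem_sp hv)

theorem ds_first (h : T_DSB) (V : Type) [NormedAddCommGroup V] [NormedSpace ℝ V]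
    [FiniteDimensional ℝ V] (C : Set V) (a b c : V) (hC : IsCC C) (h1 : Dsum C a b)
    (h2 : Dsum C (a + b) c) : Dsum C a (b + c) ∧ Dsum C b c ∧ Dsum C a c := by
  have ha := h1.1
  have hb := h1.2.1
  have hc := h2.2.1
  have hab := hC.add a ha b hb
  have hbc := hC.add b hb c hc
  have hB := h V C (a + b) c hC h2
  have hcc := self hC hc
  have hbc' : Dsum C b c := hB.2.2.1 b (right_fc hC ha hb) c hcc
  have hac' : Dsum C a c := hB.2.2.1 a (left_fc hC ha hb) c hcc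
  refine ⟨⟨ha, hbc, ?_, ?_⟩, hbc', hac'⟩
  · intro v hv1 hv2
    obtain ⟨x, hx, y, hy, rfl⟩ := Submodule.mem_sup.1 (sp_add hbc' hv2)
    have hy2 : y ∈ Sp C (a + b) := by
      have e : y = (x + y) - x := by abel
      rw [e]
      exact Submodule.sub_mem _ (sp_mono hC hab (left_fc hC ha hb) hv1)
        (sp_mono hC hab (right_fc hC ha hb) hx)
    have hy0 : y = 0 := h2.2.2.1 y hy2 hy
    subst hy0
    rw [add_zero] at hv1 ⊢
    exact h1.2.2.1 x hv1 hx
  · intro r hr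
    rw [← add_assoc] at hr
    obtain ⟨w, hw, z, hz, rfl⟩ := h2.2.2.2 r hr
    obtain ⟨x, hx, y, hy, rfl⟩ := h1.2.2.2 w hw
    refine ⟨x, hx, y + z, ?_, by abel⟩
    exact add_fc hC hbc (tra hC hbc (left_fc hC hb hc) hy) (tra hC hbc (right_fc hC hb hc) hz)

theorem pf_DSA (h : T_DSB) : T_DSA := by
  intro V _ _ _ C a b c hC
  refine ⟨ds_first h V C a b c hC, ?_⟩
  intro h1 h2
  have h3 : Dsum C c b := (h V C b c hC h2).2.1
  have h4 : Dsum C (c + b) a := by
    have := (h V C a (b + c) hC h1).2.1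
    rwa [add_comm b c] at this
  obtain ⟨h5, h6, h7⟩ := ds_first h V C c b a hC h3 h4
  refine ⟨?_, (h V C b a hC h6).2.1, (h V C c a hC h7).2.1⟩
  have := (h V C c (b + a) hC h5).2.1
  rwa [add_comm b a] at this

end Pool.Agent.H18.KW
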